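import Pool.Agent.Helper687_GP.Model
import Pool.Agent.Helper687_Borel.Tower

/-!
# Maximal classes of vertices and mapping tori of graph products of cyclic groups
-/

set_option autoImplicit false

namespace Pool.Agent.Helper687_GP

open Pool.Agent.Helper687_Borel
open Pool.Agent.Y110.FJ (ClosedE)
open Pool.Agent.R684.FP (FbC)

section

variable {V : Type} (T : SimpleGraph V) (n : V → ℕ)

/-- `v` is dominated by `w` -/
def Dom (v w : V) : Prop :=
  (n v = 0 ∨ (n w ≠ 0 ∧ T.Adj v w)) ∧ ∀ a, T.Adj v a → a = w ∨ T.Adj w a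

/-- the preorder -/
def Le (v w : V) : Prop := v = w ∨ Dom T n v w

/-- maximal classes of vertices -/
structure Mx (M : Set V) : Prop where
  ne : M.Nonempty
  up : ∀ v ∈ M, ∀ w, Dom T n v w → w ∈ M
  le : ∀ v ∈ M, ∀ w ∈ M, Le T n v w

theorem Le.trans {u v w : V} (h1 : Le T n u v) (h2 : Le T n v w) : Le T n u w := by
  rcases h1 with rfl | h1
  · exact h2
  rcases h2 with rfl | h2
  · exact Or.inr h1
  by_cases huw : u = w
  · exact Or.inl huw
  refine Or.inr ⟨?_, fun a ha => ?_⟩
  · rcases h1.1 with h | ⟨hv, huv⟩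
    · exact Or.inl h
    · rcases h2.1 with h | ⟨hw, hvw⟩
      · exact absurd h hv
      · rcases h2.2 u huv.symm with h | h
        · exact absurd h huw
        · exact Or.inr ⟨hw, h.symm⟩
  · rcases h1.2 a ha with h | h
    · rw [h] at ha ⊢
      rcases h2.2 u ha.symm with h' | h'
      · exact absurd h' huw
      · rcases h1.2 w h'.symm with h'' | h''
        · exact Or.inl h''.symm
        · exact Or.inr h''.symm
    · exact h2.2 a h

theorem exists_mx [Finite V] [Nonempty V] : ∃ M : Set V, Mx T n M := by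
  obtain ⟨v, hv⟩ := Finite.exists_min (fun v : V => ({w | Le T n v w} : Set V).ncard)
  refine ⟨{w | Le T n v w}, ⟨v, Or.inl rfl⟩, fun w hw u hu => Le.trans T n hw (Or.inr hu), ?_⟩
  intro w hw u hu
  have h1 : ({u | Le T n w u} : Set V) ⊆ {u | Le T n v u} := fun u hu => Le.trans T n hw hu
  have h2 := Set.eq_of_subset_of_ncard_le h1 (hv w) (Set.toFinite _)
  have h3 : u ∈ ({u | Le T n w u} : Set V) := by
    rw [h2]
    exact hu
  exact h3

variable {T n}

theorem Mx.link {M : Set V} (h : Mx T n M) {b b' : V} (hb : b ∈ M) (hb' : b' ∈ M) {a : V} (ha : a ∉ M)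
    (hab : T.Adj a b) : T.Adj a b' := by
  rcases h.le b hb b' hb' with rfl | h1
  · exact hab
  · rcases h1.2 a hab.symm with h2 | h2
    · rw [h2] at ha
      exact absurd hb' ha
    · exact h2.symm

theorem Mx.struct {M : Set V} (h : Mx T n M) :
    (∀ a ∈ M, ∀ b ∈ M, a ≠ b → T.Adj a b) ∨ (∀ a ∈ M, n a = 0 ∧ ∀ b ∈ M, ¬ T.Adj a b) := by
  by_cases h0 : ∃ u ∈ M, ∃ v ∈ M, T.Adj u v
  · left
    obtain ⟨u, hu, v, hv, huv⟩ := h0
    have h1 : ∀ b ∈ M, v = b ∨ T.Adj v b := by
      intro b hb
      rcases h.le u hu b hb with rfl | h2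
      · exact Or.inr huv.symm
      · rcases h2.2 v huv with h3 | h3
        · exact Or.inl h3
        · exact Or.inr h3.symm
    intro a ha b hb hab
    rcases h1 a ha with rfl | h2
    · rcases h1 b hb with h3 | h3
      · exact absurd h3 hab
      · exact h3
    · rcases h.le v hv b hb with rfl | h3
      · exact h2.symm
      · rcases h3.2 a h2 with h4 | h4
        · exact absurd h4 hab
        · exact h4.symm
  · by_cases h1 : ∀ a ∈ M, ∀ b ∈ M, a = b
    · left
      intro a ha b hb hab
      exact absurd (h1 a ha b hb) hab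
    · right
      push Not at h0 h1
      obtain ⟨a, ha, b, hb, hab⟩ := h1
      intro v hv
      refine ⟨?_, h0 v hv⟩
      obtain ⟨w, hw, hvw⟩ : ∃ w ∈ M, v ≠ w := by
        by_cases hva : v = a
        · exact ⟨b, hb, by rw [hva]; exact hab⟩
        · exact ⟨a, ha, hva⟩
      rcases h.le v hv w hw with h2 | h2
      · exact absurd h2 hvw
      · rcases h2.1 with h3 | h3
        · exact h3
        · exact absurd h3.2 (h0 v hv w hw)

variable {C : ∀ (G : Type) [Group G], Prop}

theorem Mx.mt {M : Set V} (h : Mx T n M) (hC : ClosedE C) (hF : FbC C) (hS : SolvIn C) :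
    ∃ π : GP T n →* GQ T n M, Function.Surjective π ∧
      π.ker = Subgroup.normalClosure (gen T n '' M) ∧
      (∀ a : ↥Mᶜ, π (gen T n a) = gen (T.induce Mᶜ) (fun a => n a) a) ∧ MT C π.ker := by
  obtain ⟨b0, hb0⟩ := h.ne
  obtain ⟨π, hπ, hk, hg, ⟨e⟩⟩ := gp_split T n M b0 (fun b hb a ha hab => h.link hb hb0 ha hab)
    (fun b hb a ha hab => h.link hb0 hb ha hab)
  refine ⟨π, hπ, hk, hg, mt_equiv hC e ?_⟩
  rcases h.struct with h1 | h1
  · exact cop_comm hC hF hS (gp_comm (T.induce M) (fun a => n a) fun a b hab =>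
      h1 a a.2 b b.2 fun h2 => hab (Subtype.ext h2))
  · exact cop_free hC hF (gp_free (T.induce M) (fun a => n a) (fun a b hab => (h1 a a.2).2 b b.2 hab)
      fun a => (h1 a a.2).1)

end

/-! ### Automorphisms -/

section

variable {V : Type} (T : SimpleGraph V) (n : V → ℕ)

/-- automorphisms which map every generator to a generator of a conjugate of its cyclic subgroup; and
transvections -/
def Elem0 (α : MulAut (GP T n)) : Prop :=
  (∀ v, ∃ x, Subgroup.zpowers (α (gen T n v)) = Subgroup.zpowers (x * gen T n v * x⁻¹)) ∨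
  (∃ (v w : V) (q : ℤ), v ≠ w ∧ Dom T n v w ∧ (α (gen T n v) = gen T n v * gen T n w ^ q ∨
    α (gen T n v) = gen T n w ^ q * gen T n v) ∧ ∀ u, u ≠ v → α (gen T n u) = gen T n u)

/-- symmetries of the labelled graph -/
def Sym (α : MulAut (GP T n)) : Prop :=
  ∃ σ : T ≃g T, (∀ v, n (σ v) = n v) ∧ ∀ v, α (gen T n v) = gen T n (σ v)

/-- elementary automorphisms -/
def Elem (α : MulAut (GP T n)) : Prop := Sym T n α ∨ Elem0 T n α

/-- the normal subgroups -/
def nc (M : Set V) : Subgroup (GP T n) := Subgroup.normalClosure (gen T n '' M)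

instance (M : Set V) : (nc T n M).Normal := by
  rw [nc]
  infer_instance

variable {T n}

theorem mem_nc {M : Set V} {v : V} (hv : v ∈ M) : gen T n v ∈ nc T n M :=
  Subgroup.subset_normalClosure ⟨v, hv, rfl⟩

theorem map_nc (α : MulAut (GP T n)) (M M' : Set V) (h1 : ∀ v ∈ M, α (gen T n v) ∈ nc T n M')
    (h2 : ∀ v ∈ M', gen T n v ∈ (nc T n M).map α.toMonoidHom) :
    (nc T n M).map α.toMonoidHom = nc T n M' := by
  apply le_antisymm
  · rw [Subgroup.map_le_iff_le_comap]
    refine Subgroup.normalClosure_le_normal ?_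
    rintro _ ⟨v, hv, rfl⟩
    exact h1 v hv
  · have hn : ((nc T n M).map α.toMonoidHom).Normal :=
      Subgroup.Normal.map inferInstance _ α.surjective
    refine Subgroup.normalClosure_le_normal ?_
    rintro _ ⟨v, hv, rfl⟩
    exact h2 v hv

theorem Dom.iso (σ : T ≃g T) (hσ : ∀ v, n (σ v) = n v) {v w : V} (h : Dom T n v w) :
    Dom T n (σ v) (σ w) := by
  refine ⟨?_, fun a ha => ?_⟩
  · rw [hσ, hσ]
    rcases h.1 with h1 | h1
    · exact Or.inl h1
    · exact Or.inr ⟨h1.1, σ.map_adj_iff.2 h1.2⟩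
  · have h1 : T.Adj v (σ.symm a) := by
      rw [← σ.map_adj_iff, σ.apply_symm_apply]
      exact ha
    rcases h.2 _ h1 with h2 | h2
    · left
      rw [← h2, σ.apply_symm_apply]
    · right
      rw [← σ.map_adj_iff, σ.apply_symm_apply] at h2
      exact h2

theorem elem0_nc (α : MulAut (GP T n)) (h : Elem0 T n α) {M : Set V} (hM : Mx T n M) :
    (nc T n M).map α.toMonoidHom = nc T n M := by
  rcases h with h | ⟨v, w, q, hvw, hd, hα, hu⟩
  · refine map_nc α _ _ (fun v hv => ?_) fun v hv => ?_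
    · obtain ⟨x, hx⟩ := h v
      have h1 : α (gen T n v) ∈ Subgroup.zpowers (x * gen T n v * x⁻¹) := by
        rw [← hx]
        exact Subgroup.mem_zpowers _
      exact (Subgroup.zpowers_le.2 (Subgroup.Normal.conj_mem inferInstance _ (mem_nc hv) x)) h1
    · obtain ⟨x, hx⟩ := h v
      have hn : ((nc T n M).map α.toMonoidHom).Normal :=
        Subgroup.Normal.map inferInstance _ α.surjective
      have h1 : x * gen T n v * x⁻¹ ∈ Subgroup.zpowers (α (gen T n v)) := by
        rw [hx]
        exact Subgroup.mem_zpowers _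
      have h0 : α (gen T n v) ∈ (nc T n M).map α.toMonoidHom := ⟨gen T n v, mem_nc hv, rfl⟩
      have h2 : x * gen T n v * x⁻¹ ∈ (nc T n M).map α.toMonoidHom :=
        (Subgroup.zpowers_le.2 h0) h1
      have h3 := hn.conj_mem _ h2 x⁻¹
      have h4 : x⁻¹ * (x * gen T n v * x⁻¹) * x⁻¹⁻¹ = gen T n v := by group
      rwa [h4] at h3
  · by_cases hv : v ∈ M
    · have hw : w ∈ M := hM.up v hv w hd
      have hwi : gen T n w ^ q ∈ (nc T n M).map α.toMonoidHom := by
        have h0 : gen T n w ∈ (nc T n M).map α.toMonoidHom :=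
          ⟨gen T n w, mem_nc hw, hu w (Ne.symm hvw)⟩
        exact Subgroup.zpow_mem _ h0 q
      have hαv : α (gen T n v) ∈ (nc T n M).map α.toMonoidHom := ⟨gen T n v, mem_nc hv, rfl⟩
      refine map_nc α _ _ (fun u hu' => ?_) fun u hu' => ?_
      · by_cases huv : u = v
        · rw [huv]
          rcases hα with h1 | h1
          · rw [h1]
            exact mul_mem (mem_nc hv) (Subgroup.zpow_mem _ (mem_nc hw) q)
          · rw [h1]
            exact mul_mem (Subgroup.zpow_mem _ (mem_nc hw) q) (mem_nc hv)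
        · rw [hu u huv]
          exact mem_nc hu'
      · by_cases huv : u = v
        · rw [huv]
          rcases hα with h1 | h1
          · rw [h1] at hαv
            exact (Subgroup.mul_mem_cancel_right _ hwi).1 hαv
          · rw [h1] at hαv
            exact (Subgroup.mul_mem_cancel_left _ hwi).1 hαv
        · exact ⟨gen T n u, mem_nc hu', hu u huv⟩
    · refine map_nc α _ _ (fun u hu' => ?_) fun u hu' => ?_
      · have huv : u ≠ v := fun h => hv (h ▸ hu')
        rw [hu u huv]
        exact mem_nc hu'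
      · have huv : u ≠ v := fun h => hv (h ▸ hu')
        exact ⟨gen T n u, mem_nc hu', hu u huv⟩

end

end Pool.Agent.Helper687_GP
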