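import Pool.Agent.Helper687_GP.Classes

/-!
# Mapping tori of elementary automorphisms of graph products of cyclic groups
-/

set_option autoImplicit false

namespace Pool.Agent.Helper687_GP

open Pool.Agent.Helper687_Borel
open Pool.Agent.Y110.FJ (ClosedE)
open Pool.Agent.R684.FP (FbC)
open Pool.Agent.R941.FJ (C_equiv)

variable {C : ∀ (G : Type) [Group G], Prop}

/-! ### General lemmas on mapping tori -/

theorem induced {N Q : Type} [Group N] [Group Q] (π : N →* Q) (hπ : Function.Surjective π)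
    (α : MulAut N) (hα : π.ker.map α.toMonoidHom = π.ker) :
    ∃ β : MulAut Q, ∀ x, π (α x) = β (π x) := by
  obtain ⟨e, he⟩ : ∃ e, e = QuotientGroup.quotientKerEquivOfSurjective π hπ := ⟨_, rfl⟩
  have h1 : ∀ x : N, e (x : N ⧸ π.ker) = π x := by
    rw [he]
    intro x
    rfl
  refine ⟨(e.symm.trans (QuotientGroup.congr π.ker π.ker α hα)).trans e, fun x => ?_⟩
  show π (α x) = e (QuotientGroup.congr π.ker π.ker α hα (e.symm (π x)))
  rw [← h1 x, e.symm_apply_apply, QuotientGroup.congr_mk, h1]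

theorem zpow_rel {N Q : Type} [Group N] [Group Q] (π : N →* Q) (α : MulAut N) (β : MulAut Q)
    (h : ∀ x, π (α x) = β (π x)) (i : ℤ) (x : N) : π ((α ^ i) x) = (β ^ i) (π x) := by
  have hn : ∀ (k : ℕ) (x : N), π ((α ^ k) x) = (β ^ k) (π x) := by
    intro k
    induction k with
    | zero => intro x; rw [pow_zero, pow_zero]; rfl
    | succ k ih =>
      intro x
      rw [pow_succ, pow_succ]
      show π ((α ^ k) (α x)) = (β ^ k) (β (π x))
      rw [ih, h]
  obtain ⟨k, rfl | rfl⟩ := i.eq_nat_or_neg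
  · rw [zpow_natCast, zpow_natCast]
    exact hn k x
  · rw [zpow_neg, zpow_neg, zpow_natCast, zpow_natCast]
    have h1 := hn k ((α ^ k)⁻¹ x)
    have h2 : (α ^ k) ((α ^ k)⁻¹ x) = x := (α ^ k).apply_symm_apply x
    rw [h2] at h1
    rw [h1]
    exact ((β ^ k).symm_apply_apply _).symm

/-- mapping tori of extensions -/
theorem ext_rel (hC : ClosedE C) {N Q : Type} [Group N] [Group Q] (π : N →* Q)
    (hπ : Function.Surjective π) (h1 : MT C π.ker) (α : MulAut N) (β : MulAut Q)
    (hαβ : ∀ x, π (α x) = β (π x)) (h2 : C (Q ⋊[zpowersHom (MulAut Q) β] Multiplicative ℤ)) :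
    C (N ⋊[zpowersHom (MulAut N) α] Multiplicative ℤ) := by
  obtain ⟨F, hF⟩ : ∃ F : N ⋊[zpowersHom (MulAut N) α] Multiplicative ℤ →*
      Q ⋊[zpowersHom (MulAut Q) β] Multiplicative ℤ,
      F = SemidirectProduct.map π (MonoidHom.id _) (fun g => MonoidHom.ext fun x => by
        show π (zpowersHom (MulAut N) α g x) = zpowersHom (MulAut Q) β g (π x)
        rw [zpowersHom_apply, zpowersHom_apply]
        exact zpow_rel π α β hαβ _ x) := ⟨_, rfl⟩
  have hl : ∀ x, (F x).left = π x.left := by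
    rw [hF]
    intro x
    rfl
  have hr : ∀ x, (F x).right = x.right := by
    rw [hF]
    intro x
    rfl
  have hFs : Function.Surjective F := by
    intro y
    obtain ⟨x, hx⟩ := hπ y.left
    exact ⟨⟨x, y.right⟩, SemidirectProduct.ext ((hl _).trans hx) (hr _)⟩
  obtain ⟨j, hj⟩ : ∃ j : π.ker →* N ⋊[zpowersHom (MulAut N) α] Multiplicative ℤ,
    j = SemidirectProduct.inl.comp π.ker.subtype := ⟨_, rfl⟩
  have hji : Function.Injective j := by
    rw [hj]
    exact SemidirectProduct.inl_injective.comp Subtype.val_injective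
  have hjr : j.range = F.ker := by
    ext x
    constructor
    · rintro ⟨k, rfl⟩
      rw [MonoidHom.mem_ker, hj]
      apply SemidirectProduct.ext
      · rw [hl]
        exact k.2
      · rw [hr]
        rfl
    · intro hx
      rw [MonoidHom.mem_ker] at hx
      have h3 : π x.left = 1 := by
        rw [← hl, hx]
        rfl
      have h4 : x.right = 1 := by
        rw [← hr, hx]
        rfl
      refine ⟨⟨x.left, h3⟩, ?_⟩
      rw [hj]
      exact SemidirectProduct.ext rfl h4.symm
  exact ext_top hC F.ker (mt_equiv hC ((MonoidHom.ofInjective hji).trans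
    (MulEquiv.subgroupCongr hjr)) h1)
    (C_equiv hC.base (QuotientGroup.quotientKerEquivOfSurjective F hFs) h2)

/-- mapping tori of powers -/
theorem pow_torus (hC : ClosedE C) {N : Type} [Group N] (α : MulAut N) (m : ℕ) (hm : 0 < m)
    (h : C (N ⋊[zpowersHom (MulAut N) (α ^ m)] Multiplicative ℤ)) :
    C (N ⋊[zpowersHom (MulAut N) α] Multiplicative ℤ) := by
  obtain ⟨F, hF⟩ : ∃ F : N ⋊[zpowersHom (MulAut N) (α ^ m)] Multiplicative ℤ →*
      N ⋊[zpowersHom (MulAut N) α] Multiplicative ℤ,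
      F = SemidirectProduct.map (MonoidHom.id N) (powMonoidHom m) (fun g => MonoidHom.ext fun x => by
        show zpowersHom (MulAut N) (α ^ m) g x = zpowersHom (MulAut N) α (g ^ m) x
        rw [zpowersHom_apply, zpowersHom_apply, toAdd_pow, nsmul_eq_mul, zpow_mul, zpow_natCast]) :=
    ⟨_, rfl⟩
  have hl : ∀ x, (F x).left = x.left := by
    rw [hF]
    intro x
    rfl
  have hr : ∀ x, (F x).right = x.right ^ m := by
    rw [hF]
    intro x
    rfl
  have hFi : Function.Injective F := by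
    intro x y hxy
    apply SemidirectProduct.ext
    · rw [← hl, ← hl, hxy]
    · have h1 : x.right ^ m = y.right ^ m := by rw [← hr, ← hr, hxy]
      have h2 : m • x.right.toAdd = m • y.right.toAdd := by
        rw [← toAdd_pow, ← toAdd_pow, h1]
      rw [nsmul_eq_mul, nsmul_eq_mul] at h2
      have h3 : ((m : ℕ) : ℤ) ≠ 0 := by exact_mod_cast hm.ne'
      exact Multiplicative.toAdd.injective (mul_left_cancel₀ h3 h2)
  have hfin : F.range.FiniteIndex := by
    have : NeZero m := ⟨hm.ne'⟩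
    let ρ : N ⋊[zpowersHom (MulAut N) α] Multiplicative ℤ →* Multiplicative (ZMod m) :=
      (AddMonoidHom.toMultiplicative (Int.castAddHom (ZMod m))).comp SemidirectProduct.rightHom
    have h3 : ρ.ker.FiniteIndex := inferInstance
    refine Subgroup.finiteIndex_of_le (H := ρ.ker) ?_
    intro x hx
    have h4 : ((x.right.toAdd : ℤ) : ZMod m) = 0 := hx
    rw [ZMod.intCast_zmod_eq_zero_iff_dvd] at h4
    obtain ⟨j, hj⟩ := h4
    refine ⟨⟨x.left, Multiplicative.ofAdd j⟩, SemidirectProduct.ext (hl _) ?_⟩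
    rw [hr]
    apply Multiplicative.toAdd.injective
    show (Multiplicative.ofAdd j ^ m).toAdd = x.right.toAdd
    rw [toAdd_pow, toAdd_ofAdd, nsmul_eq_mul, hj]
  exact hC.base.finiteIndex _ _ hfin (C_equiv hC.base (MonoidHom.ofInjective hFi).symm h)

/-! ### Elementary automorphisms -/

section

variable {V : Type} {T : SimpleGraph V} {n : V → ℕ}

theorem sym_one : Sym T n 1 := ⟨RelIso.refl _, fun _ => rfl, fun _ => rfl⟩

theorem Sym.mul {α β : MulAut (GP T n)} (h1 : Sym T n α) (h2 : Sym T n β) : Sym T n (α * β) := by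
  obtain ⟨σ, hσ, hα⟩ := h1
  obtain ⟨τ, hτ, hβ⟩ := h2
  refine ⟨τ.trans σ, fun v => ?_, fun v => ?_⟩
  · show n (σ (τ v)) = n v
    rw [hσ, hτ]
  · show α (β (gen T n v)) = gen T n (σ (τ v))
    rw [hβ, hα]

theorem Sym.inv {α : MulAut (GP T n)} (h : Sym T n α) : Sym T n α⁻¹ := by
  obtain ⟨σ, hσ, hα⟩ := h
  refine ⟨σ.symm, fun v => ?_, fun v => ?_⟩
  · rw [← hσ, σ.apply_symm_apply]
  · have h1 : α (gen T n (σ.symm v)) = gen T n v := by rw [hα, σ.apply_symm_apply]
    rw [← h1]
    exact α.symm_apply_apply _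

theorem Sym.pow {α : MulAut (GP T n)} (h : Sym T n α) (k : ℕ) : Sym T n (α ^ k) := by
  induction k with
  | zero => rw [pow_zero]; exact sym_one
  | succ k ih => rw [pow_succ]; exact ih.mul h

theorem Sym.finite [Finite V] {α : MulAut (GP T n)} (h : Sym T n α) : ∃ m : ℕ, 0 < m ∧ α ^ m = 1 := by
  have h1 : ∀ i : ℕ, ∃ f : V → V, ∀ v, (α ^ i) (gen T n v) = gen T n (f v) := by
    intro i
    obtain ⟨σ, _, h2⟩ := h.pow i
    exact ⟨σ, h2⟩
  choose f hf using h1
  obtain ⟨i, j, hij, hfij⟩ := Finite.exists_ne_map_eq_of_infinite f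
  have key : ∀ i j : ℕ, i < j → f i = f j → ∃ m : ℕ, 0 < m ∧ α ^ m = 1 := by
    intro i j hij hfij
    refine ⟨j - i, by omega, ?_⟩
    have h2 : α ^ i = α ^ j := by
      apply MulEquiv.toMonoidHom_injective
      refine gp_ext T n _ _ fun v => ?_
      show (α ^ i) (gen T n v) = (α ^ j) (gen T n v)
      rw [hf, hf, hfij]
    have h3 : α ^ j = α ^ i * α ^ (j - i) := by
      rw [← pow_add]
      congr 1
      omega
    rw [h3] at h2
    exact (mul_eq_left.1 h2.symm)
  rcases Nat.lt_or_gt_of_ne hij with h2 | h2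
  · exact key i j h2 hfij
  · exact key j i h2 hfij.symm

theorem conj_elem0 {γ α : MulAut (GP T n)} (hγ : Sym T n γ) (h : Elem0 T n α) :
    Elem0 T n (γ * α * γ⁻¹) := by
  obtain ⟨σ, hσ, hs⟩ := hγ
  have hinv : ∀ v, γ⁻¹ (gen T n (σ v)) = gen T n v := by
    intro v
    rw [← hs]
    exact γ.symm_apply_apply _
  have happ : ∀ v, (γ * α * γ⁻¹) (gen T n (σ v)) = γ (α (gen T n v)) := by
    intro v
    show γ (α (γ⁻¹ (gen T n (σ v)))) = _
    rw [hinv]
  rcases h with h | ⟨v, w, q, hvw, hd, hα, hu⟩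
  · left
    intro v
    obtain ⟨x, hx⟩ := h (σ.symm v)
    refine ⟨γ x, ?_⟩
    have h1 := congrArg (Subgroup.map γ.toMonoidHom) hx
    rw [MonoidHom.map_zpowers, MonoidHom.map_zpowers] at h1
    have h2 : γ (gen T n (σ.symm v)) = gen T n v := by rw [hs, σ.apply_symm_apply]
    have h3 := happ (σ.symm v)
    rw [σ.apply_symm_apply] at h3
    rw [h3]
    refine h1.trans ?_
    show Subgroup.zpowers (γ (x * gen T n (σ.symm v) * x⁻¹)) = _
    rw [map_mul, map_mul, map_inv, h2]
  · right
    refine ⟨σ v, σ w, q, fun h1 => hvw (σ.injective h1), hd.iso σ hσ, ?_, ?_⟩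
    · rw [happ, ← hs, ← hs]
      rcases hα with h1 | h1
      · left
        rw [h1, map_mul, map_zpow]
      · right
        rw [h1, map_mul, map_zpow]
    · intro u hu'
      have h1 := happ (σ.symm u)
      rw [σ.apply_symm_apply] at h1
      rw [h1, hu _ (fun h2 => hu' (by rw [← h2, σ.apply_symm_apply])), hs, σ.apply_symm_apply]

theorem conj_cl {γ α : MulAut (GP T n)} (hγ : Sym T n γ) (h : α ∈ Subgroup.closure {α | Elem0 T n α}) :
    γ * α * γ⁻¹ ∈ Subgroup.closure {α | Elem0 T n α} := by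
  induction h using Subgroup.closure_induction with
  | mem β hβ => exact Subgroup.subset_closure (conj_elem0 hγ hβ)
  | one => rw [mul_one, mul_inv_cancel]; exact one_mem _
  | mul β δ _ _ hβ hδ =>
    have h1 : γ * (β * δ) * γ⁻¹ = (γ * β * γ⁻¹) * (γ * δ * γ⁻¹) := by group
    rw [h1]
    exact mul_mem hβ hδ
  | inv β _ hβ =>
    have h1 : γ * β⁻¹ * γ⁻¹ = (γ * β * γ⁻¹)⁻¹ := by group
    rw [h1]
    exact inv_mem hβ

theorem decomp {α : MulAut (GP T n)} (h : α ∈ Subgroup.closure {α | Elem T n α}) :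
    ∃ κ γ, κ ∈ Subgroup.closure {α | Elem0 T n α} ∧ Sym T n γ ∧ α = κ * γ := by
  induction h using Subgroup.closure_induction with
  | mem β hβ =>
    rcases hβ with h1 | h1
    · exact ⟨1, β, one_mem _, h1, (one_mul β).symm⟩
    · exact ⟨β, 1, Subgroup.subset_closure h1, sym_one, (mul_one β).symm⟩
  | one => exact ⟨1, 1, one_mem _, sym_one, (one_mul _).symm⟩
  | mul β δ _ _ hβ hδ =>
    obtain ⟨κ, γ, hκ, hγ, rfl⟩ := hβ
    obtain ⟨κ', γ', hκ', hγ', rfl⟩ := hδ
    exact ⟨κ * (γ * κ' * γ⁻¹), γ * γ', mul_mem hκ (conj_cl hγ hκ'), hγ.mul hγ', by group⟩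
  | inv β _ hβ =>
    obtain ⟨κ, γ, hκ, hγ, rfl⟩ := hβ
    refine ⟨γ⁻¹ * κ⁻¹ * γ⁻¹⁻¹, γ⁻¹, conj_cl hγ.inv (inv_mem hκ), hγ.inv, by group⟩

theorem pow_elem0 [Finite V] {α : MulAut (GP T n)} (h : α ∈ Subgroup.closure {α | Elem T n α}) :
    ∃ m : ℕ, 0 < m ∧ α ^ m ∈ Subgroup.closure {α | Elem0 T n α} := by
  obtain ⟨κ, γ, hκ, hγ, rfl⟩ := decomp h
  have h1 : ∀ k : ℕ, ∃ κ' ∈ Subgroup.closure {α | Elem0 T n α}, (κ * γ) ^ k = κ' * γ ^ k := by
    intro k
    induction k with
    | zero => exact ⟨1, one_mem _, by rw [pow_zero, pow_zero, one_mul]⟩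
    | succ k ih =>
      obtain ⟨κ', hκ', h2⟩ := ih
      refine ⟨κ * (γ * κ' * γ⁻¹), mul_mem hκ (conj_cl hγ hκ'), ?_⟩
      rw [pow_succ', h2, pow_succ']
      group
  obtain ⟨m, hm, h2⟩ := hγ.finite
  obtain ⟨κ', hκ', h3⟩ := h1 m
  exact ⟨m, hm, by rw [h3, h2, mul_one]; exact hκ'⟩

theorem Dom.induce {M : Set V} {v w : V} (hv : v ∉ M) (hw : w ∉ M) (h : Dom T n v w) :
    Dom (T.induce Mᶜ) (fun a => n a) ⟨v, hv⟩ ⟨w, hw⟩ := by
  refine ⟨?_, fun a ha => ?_⟩
  · rcases h.1 with h1 | h1
    · exact Or.inl h1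
    · exact Or.inr ⟨h1.1, h1.2⟩
  · rcases h.2 a ha with h1 | h1
    · exact Or.inl (Subtype.ext h1)
    · exact Or.inr h1

theorem desc {M : Set V} (hM : Mx T n M) (π : GP T n →* GQ T n M) (hπ : Function.Surjective π)
    (hk : π.ker = Subgroup.normalClosure (gen T n '' M))
    (hg : ∀ a : ↥Mᶜ, π (gen T n a) = gen (T.induce Mᶜ) (fun a => n a) a)
    {α : MulAut (GP T n)} (h : α ∈ Subgroup.closure {α | Elem0 T n α}) :
    ∃ β ∈ Subgroup.closure {β | Elem0 (T.induce Mᶜ) (fun a => n a) β}, ∀ x, π (α x) = β (π x) := by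
  have hM1 : ∀ v ∈ M, π (gen T n v) = 1 := by
    intro v hv
    rw [← MonoidHom.mem_ker, hk]
    exact Subgroup.subset_normalClosure ⟨v, hv, rfl⟩
  induction h using Subgroup.closure_induction with
  | mem α hα =>
    have h1 : π.ker.map α.toMonoidHom = π.ker := by
      rw [hk]
      exact elem0_nc α hα hM
    obtain ⟨β, hβ⟩ := induced π hπ α h1
    refine ⟨β, ?_, hβ⟩
    have hβg : ∀ a : ↥Mᶜ, β (gen (T.induce Mᶜ) (fun a => n a) a) = π (α (gen T n a)) := by
      intro a
      rw [hβ, hg]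
    have hβ1 : (∀ a : ↥Mᶜ, β (gen (T.induce Mᶜ) (fun a => n a) a) =
        gen (T.induce Mᶜ) (fun a => n a) a) →
        β ∈ Subgroup.closure {β | Elem0 (T.induce Mᶜ) (fun a => n a) β} := by
      intro h2
      refine Subgroup.subset_closure (Or.inl fun a => ⟨1, ?_⟩)
      rw [h2, one_mul, inv_one, mul_one]
    rcases hα with hα | ⟨v, w, q, hvw, hd, hα, hu⟩
    · refine Subgroup.subset_closure (Or.inl fun a => ?_)
      obtain ⟨x, hx⟩ := hα a
      refine ⟨π x, ?_⟩
      have h2 := congrArg (Subgroup.map π) hx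
      rw [MonoidHom.map_zpowers, MonoidHom.map_zpowers, map_mul, map_mul, map_inv, hg] at h2
      rw [hβg]
      exact h2
    · by_cases hv : v ∈ M
      · refine hβ1 fun a => ?_
        rw [hβg, hu a (fun h2 => a.2 (h2 ▸ hv)), hg]
      · by_cases hw : w ∈ M
        · refine hβ1 fun a => ?_
          rw [hβg]
          by_cases hav : (a : V) = v
          · rw [hav]
            have h2 : π (α (gen T n v)) = π (gen T n v) := by
              rcases hα with h3 | h3
              · rw [h3, map_mul, map_zpow, hM1 w hw, one_zpow, mul_one]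
              · rw [h3, map_mul, map_zpow, hM1 w hw, one_zpow, one_mul]
            rw [h2, ← hav, hg]
          · rw [hu a hav, hg]
        · refine Subgroup.subset_closure (Or.inr ⟨⟨v, hv⟩, ⟨w, hw⟩, q, ?_, hd.induce hv hw, ?_, ?_⟩)
          · intro h2
            exact hvw (congrArg Subtype.val h2)
          · rw [hβg]
            rcases hα with h3 | h3
            · left
              show π (α (gen T n v)) = _
              rw [h3, map_mul, map_zpow, ← hg, ← hg]
            · right
              show π (α (gen T n v)) = _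
              rw [h3, map_mul, map_zpow, ← hg, ← hg]
          · intro u hu'
            rw [hβg, hu u (fun h2 => hu' (Subtype.ext h2)), hg]
  | one => exact ⟨1, one_mem _, fun _ => rfl⟩
  | mul α α' _ _ h1 h2 =>
    obtain ⟨β, hβ, h3⟩ := h1
    obtain ⟨β', hβ', h4⟩ := h2
    refine ⟨β * β', mul_mem hβ hβ', fun x => ?_⟩
    show π (α (α' x)) = β (β' (π x))
    rw [h3, h4]
  | inv α _ h1 =>
    obtain ⟨β, hβ, h3⟩ := h1
    refine ⟨β⁻¹, inv_mem hβ, fun x => ?_⟩
    have h4 := h3 (α⁻¹ x)
    have h5 : α (α⁻¹ x) = x := α.apply_symm_apply x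
    rw [h5] at h4
    rw [h4]
    exact (β.symm_apply_apply _).symm

end

theorem gp_elem0 (hC : ClosedE C) (hF : FbC C) (hS : SolvIn C) :
    ∀ (k : ℕ) (V : Type) [Finite V] (T : SimpleGraph V) (n : V → ℕ), Nat.card V ≤ k →
      ∀ α ∈ Subgroup.closure {α | Elem0 T n α},
        C (GP T n ⋊[zpowersHom (MulAut (GP T n)) α] Multiplicative ℤ) := by
  intro k
  induction k with
  | zero =>
    intro V _ T n hk α _
    have hV : IsEmpty V := by
      rcases Nat.card_eq_zero.1 (Nat.le_zero.1 hk) with h | h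
      · exact h
      · exact absurd h (not_infinite_iff_finite.2 inferInstance)
    exact mt_solv hS _ (Group.isSolvable_of_comm (gp_comm T n fun a => (IsEmpty.false a).elim)) α
  | succ k ih =>
    intro V _ T n hk α hα
    rcases isEmpty_or_nonempty V with hV | hV
    · exact mt_solv hS _ (Group.isSolvable_of_comm (gp_comm T n fun a => (IsEmpty.false a).elim)) α
    obtain ⟨M, hM⟩ := exists_mx T n
    have h1 : Nat.card ↥Mᶜ ≤ k := by
      obtain ⟨v, hv⟩ := hM.ne
      have h2 : Mᶜ.ncard < Nat.card V := by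
        rw [← Set.ncard_univ]
        exact Set.ncard_lt_ncard ((Set.ssubset_univ_iff).2 fun h3 => by
          have h4 : v ∈ Mᶜ := by rw [h3]; trivial
          exact h4 hv) (Set.toFinite _)
      have h3 : Nat.card ↥Mᶜ = Mᶜ.ncard := rfl
      omega
    obtain ⟨π, hπ, hk', hg, hMT⟩ := hM.mt hC hF hS
    obtain ⟨β, hβ, h2⟩ := desc hM π hπ hk' hg hα
    exact ext_rel hC π hπ hMT α β h2 (ih ↥Mᶜ (T.induce Mᶜ) (fun a => n a) h1 β hβ)

/-- **mapping tori of the automorphisms which are products of elementary ones** -/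
theorem gp_torus (hC : ClosedE C) (hF : FbC C) (hS : SolvIn C) (V : Type) [Finite V]
    (T : SimpleGraph V) (n : V → ℕ) (α : MulAut (GP T n))
    (hα : α ∈ Subgroup.closure {α | Elem T n α}) :
    C (GP T n ⋊[zpowersHom (MulAut (GP T n)) α] Multiplicative ℤ) := by
  obtain ⟨m, hm, h1⟩ := pow_elem0 hα
  exact pow_torus hC α m hm (gp_elem0 hC hF hS _ V T n le_rfl _ h1)

/-- **extensions on which the group acts by products of elementary automorphisms** -/
theorem gp_ext_elem (hC : ClosedE C) (hF : FbC C) (hS : SolvIn C) (V : Type) [Finite V]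
    (T : SimpleGraph V) (n : V → ℕ) (G : Type) [Group G] (f : GP T n →* G)
    (hf : Function.Injective f) [hn : f.range.Normal] (hQ : C (G ⧸ f.range))
    (hG : ∀ g : G, ∃ α ∈ Subgroup.closure {α | Elem T n α}, ∀ x, f (α x) = g * f x * g⁻¹) : C G := by
  refine Pool.Agent.Y529.FJ.t_ext C hC G f.range ?_ hQ fun g hg => ?_
  · refine C_equiv hC.base (MonoidHom.ofInjective hf).symm ?_
    exact hC.base.of_injective _ _ (SemidirectProduct.inl (φ := zpowersHom (MulAut (GP T n)) 1))
      SemidirectProduct.inl_injective (gp_torus hC hF hS V T n 1 (one_mem _))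
  · obtain ⟨α, hα, h⟩ := hG g
    obtain ⟨F, hF'⟩ : ∃ F : GP T n ⋊[zpowersHom (MulAut (GP T n)) α] Multiplicative ℤ →* G,
        F = SemidirectProduct.lift f (zpowersHom G g) (fun z => MonoidHom.ext fun x => by
          show f (zpowersHom (MulAut (GP T n)) α z x) = MulAut.conj (zpowersHom G g z) (f x)
          rw [zpowersHom_apply, zpowersHom_apply, map_zpow]
          exact zpow_rel f α (MulAut.conj g) h _ x) := ⟨_, rfl⟩
    have hFx : ∀ x, F x = f x.left * g ^ x.right.toAdd := by
      rw [hF']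
      intro x
      rfl
    have key : ∀ i : ℤ, g ^ i ∈ f.range → i = 0 := by
      intro i hi
      obtain ⟨k, rfl | rfl⟩ := i.eq_nat_or_neg
      · rcases Nat.eq_zero_or_pos k with h1 | h1
        · rw [h1]; rfl
        · rw [zpow_natCast] at hi
          exact absurd hi (hg k h1)
      · rcases Nat.eq_zero_or_pos k with h1 | h1
        · rw [h1]; rfl
        · rw [zpow_neg, zpow_natCast, inv_mem_iff] at hi
          exact absurd hi (hg k h1)
    have hFi : Function.Injective F := by
      rw [injective_iff_map_eq_one]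
      intro x hx
      rw [hFx] at hx
      have h1 : g ^ x.right.toAdd ∈ f.range := by
        have h2 : g ^ x.right.toAdd = f x.left⁻¹ := by
          rw [map_inv]
          exact (inv_eq_of_mul_eq_one_right hx).symm
        rw [h2]
        exact ⟨_, rfl⟩
      have h2 := key _ h1
      rw [h2, zpow_zero, mul_one] at hx
      apply SemidirectProduct.ext
      · exact hf (by rw [hx, SemidirectProduct.one_left, map_one])
      · exact Multiplicative.toAdd.injective h2
    have hr : F.range = f.range ⊔ Subgroup.zpowers g := by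
      apply le_antisymm
      · rintro _ ⟨x, rfl⟩
        rw [hFx]
        exact Subgroup.mul_mem_sup ⟨_, rfl⟩ (Subgroup.zpow_mem _ (Subgroup.mem_zpowers g) _)
      · refine sup_le ?_ ?_
        · rintro _ ⟨x, rfl⟩
          refine ⟨SemidirectProduct.inl x, ?_⟩
          rw [hFx]
          show f x * g ^ (0 : ℤ) = f x
          rw [zpow_zero, mul_one]
        · rw [Subgroup.zpowers_le]
          refine ⟨SemidirectProduct.inr (Multiplicative.ofAdd 1), ?_⟩
          rw [hFx]
          show f 1 * g ^ (1 : ℤ) = g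
          rw [map_one, one_mul, zpow_one]
    exact C_equiv hC.base ((MonoidHom.ofInjective hFi).trans (MulEquiv.subgroupCongr hr)).symm
      (gp_torus hC hF hS V T n α hα)

end Pool.Agent.Helper687_GP
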